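import Pool.Agent.Helper57.NX.Defs2
import Pool.Agent.Helper5.NX.Basic

/-!
# Project NX, NX-20: base, large phases and small phases
-/

set_option autoImplicit false

open Finset
open scoped BigOperators ComplexConjugate

namespace Pool.Agent.Helper57.NX

noncomputable section

/-! ### averages over intervals -/

private theorem expect_Ico8 {M : Type} [AddCommMonoid M] [Module ℚ≥0 M] (u T : ℕ) (g : ℕ → M) :
    𝔼 k ∈ Ico u (u + T), g k = 𝔼 i ∈ range T, g (u + i) := by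
  unfold Finset.expect
  rw [Finset.sum_Ico_eq_sum_range, Nat.card_Ico, card_range, Nat.add_sub_cancel_left]

private theorem sum_shift8 {K : Type} [RCLike K] (F : ℕ → K) (hF : ∀ k, ‖F k‖ ≤ 1) (T j : ℕ) :
    ∀ u : ℕ, ‖∑ i ∈ range T, F (u + i + j) - ∑ i ∈ range T, F (u + i)‖ ≤ 2 * j := by
  induction j with
  | zero => intro u; simp
  | succ j ih =>
    intro u
    have h1 : ∑ i ∈ range T, F (u + i + (j + 1)) - ∑ i ∈ range T, F (u + i + j)
        = F (u + T + j) - F (u + j) := by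
      rw [← Finset.sum_sub_distrib]
      have h2 := Finset.sum_range_sub (fun i => F (u + i + j)) T
      simp only [Nat.add_zero] at h2
      rw [← h2]
      refine Finset.sum_congr rfl fun i _ => ?_
      congr 2
      omega
    have h3 : ∑ i ∈ range T, F (u + i + (j + 1)) - ∑ i ∈ range T, F (u + i)
        = (F (u + T + j) - F (u + j)) + (∑ i ∈ range T, F (u + i + j) - ∑ i ∈ range T, F (u + i)) := by
      rw [← h1]; ring
    rw [h3]
    calc _ ≤ ‖F (u + T + j) - F (u + j)‖ + ‖∑ i ∈ range T, F (u + i + j)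
          - ∑ i ∈ range T, F (u + i)‖ := norm_add_le _ _
      _ ≤ (1 + 1) + 2 * j := add_le_add ((norm_sub_le _ _).trans (add_le_add (hF _) (hF _))) (ih u)
      _ = 2 * ((j + 1 : ℕ) : ℝ) := by push_cast; ring

private theorem expect_shift8 {K : Type} [RCLike K] (F : ℕ → K) (hF : ∀ k, ‖F k‖ ≤ 1) (T j u : ℕ) :
    ‖𝔼 i ∈ range T, F (u + i + j) - 𝔼 i ∈ range T, F (u + i)‖ ≤ 2 * j / T := by
  rw [expect_eq_sum_div_card, expect_eq_sum_div_card, ← sub_div, norm_div, card_range,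
    RCLike.norm_natCast]
  exact div_le_div_of_nonneg_right (sum_shift8 F hF T j u) (Nat.cast_nonneg T)

/-- sliding windows -/
private theorem sliding8 (G : ℕ → ℂ) (hG : ∀ k, ‖G k‖ ≤ 1) (u T K K2 : ℕ) (hK : 1 ≤ K)
    (hK2 : 1 ≤ K2) :
    𝔼 i ∈ range T, ‖𝔼 j ∈ range K, G (u + i + j)‖ ≤
      𝔼 i ∈ range T, ‖𝔼 l ∈ range K2, G (u + i + l)‖ + (2 * K2 / K + 2 * K / T) := by
  set H : ℕ → ℝ := fun k => ‖𝔼 l ∈ range K2, G (k + l)‖ with hH
  have hH1 : ∀ k, ‖H k‖ ≤ 1 := by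
    intro k
    rw [Real.norm_of_nonneg (norm_nonneg _)]
    exact norm_expect_le_of5 _ _ zero_le_one fun _ _ => hG _
  have hne : (range K2).Nonempty := nonempty_range_iff.2 (by omega)
  have hneK : (range K).Nonempty := nonempty_range_iff.2 (by omega)
  have h1 : ∀ k : ℕ, ‖𝔼 j ∈ range K, G (k + j)‖ ≤ 𝔼 j ∈ range K, H (k + j) + 2 * K2 / K := by
    intro k
    have e1 : 𝔼 j ∈ range K, G (k + j) = 𝔼 l ∈ range K2, 𝔼 j ∈ range K, G (k + j + l)
        + 𝔼 l ∈ range K2, (𝔼 j ∈ range K, G (k + j) - 𝔼 j ∈ range K, G (k + j + l)) := by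
      rw [← expect_add_distrib]
      have : ∀ l ∈ range K2, 𝔼 j ∈ range K, G (k + j + l)
          + (𝔼 j ∈ range K, G (k + j) - 𝔼 j ∈ range K, G (k + j + l))
          = 𝔼 j ∈ range K, G (k + j) := fun l _ => by ring
      rw [expect_congr rfl this, expect_const hne]
    have e2 : ‖𝔼 l ∈ range K2, 𝔼 j ∈ range K, G (k + j + l)‖ ≤ 𝔼 j ∈ range K, H (k + j) := by
      rw [expect_comm]
      exact norm_expect_le5 _ _
    have e3 : ‖𝔼 l ∈ range K2, (𝔼 j ∈ range K, G (k + j) - 𝔼 j ∈ range K, G (k + j + l))‖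
        ≤ 2 * K2 / K := by
      refine norm_expect_le_of5 _ _ (by positivity) fun l hl => ?_
      rw [norm_sub_rev]
      refine (expect_shift8 G hG K l k).trans ?_
      have : (l : ℝ) ≤ K2 := by exact_mod_cast (mem_range.1 hl).le
      gcongr
    rw [e1]
    exact (norm_add_le _ _).trans (add_le_add e2 e3)
  have h2 : 𝔼 i ∈ range T, 𝔼 j ∈ range K, H (u + i + j) ≤ 𝔼 i ∈ range T, H (u + i) + 2 * K / T := by
    rw [expect_comm]
    refine expect_le hneK fun j hj => ?_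
    have h3 := expect_shift8 H hH1 T j u
    rw [Real.norm_eq_abs] at h3
    have h4 := le_of_abs_le h3
    have h5 : (2 * j / T : ℝ) ≤ 2 * K / T := by
      have : (j : ℝ) ≤ K := by exact_mod_cast (mem_range.1 hj).le
      gcongr
    linarith
  rcases Nat.eq_zero_or_pos T with rfl | hT
  · simp only [range_zero, expect_empty]
    positivity
  have hneT : (range T).Nonempty := nonempty_range_iff.2 (by omega)
  calc 𝔼 i ∈ range T, ‖𝔼 j ∈ range K, G (u + i + j)‖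
      ≤ 𝔼 i ∈ range T, (𝔼 j ∈ range K, H (u + i + j) + 2 * K2 / K) :=
        expect_le_expect fun i _ => h1 (u + i)
    _ = 𝔼 i ∈ range T, 𝔼 j ∈ range K, H (u + i + j) + 2 * K2 / K := by
        rw [expect_add_distrib, expect_const hneT]
    _ ≤ _ := by linarith

/-! ### powers -/

private theorem rpow_bounds8 (γ ξ : ℝ) (h1 : 1 ≤ ξ) (h4 : ξ ≤ 4) :
    (4 : ℝ) ^ (-|γ|) ≤ ξ ^ γ ∧ ξ ^ γ ≤ (4 : ℝ) ^ |γ| := by
  have h0 : 0 < ξ := by linarith
  constructor
  · calc (4 : ℝ) ^ (-|γ|) ≤ ξ ^ (-|γ|) := Real.rpow_le_rpow_of_nonpos h0 h4 (by simp)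
      _ ≤ ξ ^ γ := Real.rpow_le_rpow_of_exponent_le h1 (neg_abs_le γ)
  · calc ξ ^ γ ≤ ξ ^ |γ| := Real.rpow_le_rpow_of_exponent_le h1 (le_abs_self γ)
      _ ≤ 4 ^ |γ| := Real.rpow_le_rpow h0.le h4 (abs_nonneg _)

private theorem mv8 (γ s s' : ℝ) (h1 : 1 ≤ s) (h : s < s') :
    ∃ ξ, s < ξ ∧ ξ < s' ∧ s' ^ γ - s ^ γ = γ * ξ ^ (γ - 1) * (s' - s) := by
  obtain ⟨ξ, hξ, h2⟩ := exists_hasDerivAt_eq_slope (fun x => x ^ γ) (fun x => γ * x ^ (γ - 1)) h
    (fun x hx => (Real.continuousAt_rpow_const x γ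
      (Or.inl (by have := hx.1; linarith))).continuousWithinAt)
    (fun x hx => Real.hasDerivAt_rpow_const (Or.inl (by have := hx.1; linarith)))
  refine ⟨ξ, hξ.1, hξ.2, ?_⟩
  have h3 : s' - s ≠ 0 := by linarith
  rw [h2, div_mul_cancel₀ _ h3]

/-- Lipschitz constant -/
private def Lc8 (γ : ℝ) : ℝ := |γ| * (4 : ℝ) ^ |γ - 1|

private theorem Lc8_nonneg (γ : ℝ) : 0 ≤ Lc8 γ := by unfold Lc8; positivity

private theorem lip8 (γ s s' : ℝ) (h1 : 1 ≤ s) (h : s ≤ s') (h4 : s' ≤ 4) :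
    |s' ^ γ - s ^ γ| ≤ Lc8 γ * (s' - s) := by
  rcases h.eq_or_lt with rfl | h
  · simp
  obtain ⟨ξ, h2, h3, h5⟩ := mv8 γ s s' h1 h
  rw [h5, abs_mul, abs_mul, abs_of_pos (sub_pos.2 h),
    abs_of_nonneg (Real.rpow_nonneg (by linarith) _)]
  unfold Lc8
  have := (rpow_bounds8 (γ - 1) ξ (by linarith) (by linarith)).2
  have h6 := sub_pos.2 h
  gcongr

private theorem floor8 (x y : ℝ) : |((⌊x⌋ : ℝ) - ⌊y⌋) - (x - y)| ≤ 1 := by
  rw [abs_le]
  constructor <;> linarith [Int.floor_le x, Int.floor_le y, Int.lt_floor_add_one x,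
    Int.lt_floor_add_one y]

/-- eventual inequality -/
private theorem ev8 (Cc α β : ℝ) (h : β < α) :
    ∀ᶠ D : ℝ in Filter.atTop, Cc * D ^ (-α) ≤ D ^ (-β) := by
  have h1 := tendsto_rpow_atTop (sub_pos.2 h)
  filter_upwards [h1.eventually_ge_atTop Cc, Filter.eventually_gt_atTop 0] with D h2 h3
  calc Cc * D ^ (-α) ≤ D ^ (α - β) * D ^ (-α) :=
        mul_le_mul_of_nonneg_right h2 (Real.rpow_nonneg h3.le _)
    _ = D ^ (-β) := by rw [← Real.rpow_add h3]; congr 1; ring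

/-! ### the sequences -/

section Seq
variable {m N : ℕ} [NeZero N] {S : Sys (m + 1)} {c : Fin (m + 1) → ℝ}

private theorem t_mem8 {k : ℕ} (hD : 1 ≤ S.D) (h0 : 0 ≤ S.ρ) (h1 : S.ρ ≤ 1) (hk : S.D ≤ k)
    (hk3 : (k : ℝ) ≤ 3 * S.D) : 1 ≤ S.t k ∧ S.t k ≤ 4 := by
  unfold Sys.t
  have hD0 : 0 < S.D := by linarith
  rw [le_div_iff₀ hD0, div_le_iff₀ hD0]
  constructor <;> linarith

private theorem t_add8 (k j : ℕ) : S.t (k + j) - S.t k = j / S.D := by
  unfold Sys.t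
  rw [← sub_div]
  push_cast
  congr 1
  ring

private theorem tpow8 (γ : ℝ) {k j : ℕ} (hD : 1 ≤ S.D) (h0 : 0 ≤ S.ρ) (h1 : S.ρ ≤ 1)
    (hk : S.D ≤ k) (hk3 : ((k + j : ℕ) : ℝ) ≤ 3 * S.D) :
    |(S.t (k + j)) ^ γ - (S.t k) ^ γ| ≤ Lc8 γ * (j / S.D) := by
  have hkj : (k : ℝ) ≤ (k + j : ℕ) := by exact_mod_cast Nat.le_add_right k j
  have e1 := t_mem8 hD h0 h1 hk (hkj.trans hk3)
  have e2 := t_mem8 hD h0 h1 (hk.trans hkj) hk3
  rw [← t_add8 k j]
  refine lip8 γ _ _ e1.1 ?_ e2.2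
  have := t_add8 (S := S) k j
  have h3 : 0 ≤ (j : ℝ) / S.D := by positivity
  linarith

private theorem adiff8 (i : Fin (m + 1)) {k j : ℕ} (hD : 1 ≤ S.D) (h0 : 0 ≤ S.ρ) (h1 : S.ρ ≤ 1)
    (hP : 0 ≤ S.P i) (hk : S.D ≤ k) (hk3 : ((k + j : ℕ) : ℝ) ≤ 3 * S.D) :
    |(S.a c i (k + j) : ℝ) - S.a c i k| ≤ Lc8 (c i) * (S.P i * (j / S.D)) + 1 := by
  unfold Sys.a
  have h2 := floor8 (S.P i * S.t (k + j) ^ c i) (S.P i * S.t k ^ c i)
  have h3 := tpow8 (c i) hD h0 h1 hk hk3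
  have h4 : |S.P i * S.t (k + j) ^ c i - S.P i * S.t k ^ c i|
      ≤ Lc8 (c i) * (S.P i * (j / S.D)) := by
    rw [← mul_sub, abs_mul, abs_of_nonneg hP]
    calc _ ≤ S.P i * (Lc8 (c i) * (j / S.D)) := mul_le_mul_of_nonneg_left h3 hP
      _ = _ := by ring
  rw [abs_le] at h2 h4 ⊢
  constructor <;> linarith [h2.1, h2.2, h4.1, h4.2]

end Seq

private theorem l1_two8 {N : ℕ} [NeZero N] {B X : ℝ} {f : ZMod N → ℂ} (h : TV B X f) (hX : 0 < X)
    (a b : ℤ) : 𝔼 x, ‖f (x + (a : ZMod N)) - f (x + (b : ZMod N))‖ ≤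
      |(a : ℝ) - b| * (B * (1 / X + 1 / N)) := by
  have h1 := h.l1_shift hX (a - b)
  rw [← expect_shift (fun x => ‖f (x + ((a - b : ℤ) : ZMod N)) - f x‖) (b : ZMod N)] at h1
  rw [mul_assoc] at h1
  push_cast at h1
  refine le_trans (le_of_eq (expect_congr rfl fun x _ => ?_)) h1
  congr 3
  ring

/-! ### windows -/

/-- the phase -/
private def ph8 {m : ℕ} (S : Sys (m + 1)) (c : Fin (m + 1) → ℝ) (v : Fin m → ℝ) (k : ℕ) : ℝ :=
  ∑ i : Fin m, v i * S.P i.castSucc * (S.t k) ^ (c i.castSucc)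

section Win
variable {m N : ℕ} [NeZero N] {S : Sys (m + 1)} {c : Fin (m + 1) → ℝ}

private theorem locCorr_le8 (f : ZMod N → ℂ) (hf : ∀ x, ‖f x‖ ≤ 1) (θ : ZMod N → Fin m → ℝ)
    (K K2 : ℕ) (hK : 1 ≤ K) (hK2 : 1 ≤ K2) (x : ZMod N) :
    locCorr S c f θ K x ≤
      𝔼 i ∈ range S.T, ‖𝔼 l ∈ range K2, (f (x + (S.a c (Fin.last m) (S.u + i + l) : ZMod N)) *
        e (ph8 S c (θ x) (S.u + i + l)))‖ + (2 * K2 / K + 2 * K / S.T) := by
  unfold locCorr Sys.I
  rw [expect_Ico8]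
  refine sliding8 (fun k => f (x + (S.a c (Fin.last m) k : ZMod N)) * e (ph8 S c (θ x) k)) ?_
    S.u S.T K K2 hK hK2
  intro k
  rw [norm_mul, norm_e, mul_one]
  exact hf _

omit [NeZero N] in
private theorem win_large8 (f : ZMod N → ℂ) (hf : ∀ x, ‖f x‖ ≤ 1) (v : Fin m → ℝ)
    (K2 : ℕ) (k : ℕ) (x : ZMod N) :
    ‖𝔼 l ∈ range K2, (f (x + (S.a c (Fin.last m) (k + l) : ZMod N)) * e (ph8 S c v (k + l)))‖ ≤
      ‖𝔼 l ∈ range K2, e (ph8 S c v (k + l))‖ +
      𝔼 l ∈ range K2, ‖f (x + (S.a c (Fin.last m) (k + l) : ZMod N))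
        - f (x + (S.a c (Fin.last m) k : ZMod N))‖ := by
  have h1 : 𝔼 l ∈ range K2, (f (x + (S.a c (Fin.last m) (k + l) : ZMod N)) * e (ph8 S c v (k + l)))
      = f (x + (S.a c (Fin.last m) k : ZMod N)) * 𝔼 l ∈ range K2, e (ph8 S c v (k + l)) +
        𝔼 l ∈ range K2, (f (x + (S.a c (Fin.last m) (k + l) : ZMod N))
        - f (x + (S.a c (Fin.last m) k : ZMod N))) * e (ph8 S c v (k + l)) := by
    rw [mul_expect, ← expect_add_distrib]
    refine expect_congr rfl fun l _ => ?_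
    ring
  rw [h1]
  refine (norm_add_le _ _).trans (add_le_add ?_ ?_)
  · rw [norm_mul]
    exact mul_le_of_le_one_left (norm_nonneg _) (hf _)
  · refine (norm_expect_le5 _ _).trans (le_of_eq (expect_congr rfl fun l _ => ?_))
    rw [norm_mul, norm_e, mul_one]

omit [NeZero N] in
private theorem win_small8 (f : ZMod N → ℂ) (hf : ∀ x, ‖f x‖ ≤ 1) (v : Fin m → ℝ)
    (K2 : ℕ) (k : ℕ) (x : ZMod N) {η : ℝ} (hη : 0 ≤ η)
    (h : ∀ l ∈ range K2, |ph8 S c v (k + l) - ph8 S c v k| ≤ η) :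
    ‖𝔼 l ∈ range K2, (f (x + (S.a c (Fin.last m) (k + l) : ZMod N)) * e (ph8 S c v (k + l)))‖ ≤
      ‖𝔼 l ∈ range K2, f (x + (S.a c (Fin.last m) (k + l) : ZMod N))‖ + 2 * Real.pi * η := by
  have h1 : 𝔼 l ∈ range K2, (f (x + (S.a c (Fin.last m) (k + l) : ZMod N)) * e (ph8 S c v (k + l)))
      = (𝔼 l ∈ range K2, f (x + (S.a c (Fin.last m) (k + l) : ZMod N))) * e (ph8 S c v k) +
        𝔼 l ∈ range K2, f (x + (S.a c (Fin.last m) (k + l) : ZMod N))
        * (e (ph8 S c v (k + l)) - e (ph8 S c v k)) := by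
    rw [expect_mul, ← expect_add_distrib]
    refine expect_congr rfl fun l _ => ?_
    ring
  rw [h1]
  refine (norm_add_le _ _).trans (add_le_add ?_ ?_)
  · rw [norm_mul, norm_e, mul_one]
  · refine norm_expect_le_of5 _ _ (by positivity) fun l hl => ?_
    rw [norm_mul]
    refine (mul_le_of_le_one_left (norm_nonneg _) (hf _)).trans ((norm_e_sub_e_le _ _).trans ?_)
    have := h l hl
    have h3 : 0 < 2 * Real.pi := by positivity
    exact mul_le_mul_of_nonneg_left this h3.le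

omit [NeZero N] in
/-- sizes -/
private theorem sizes8 {x0 b X : ℝ} (hb : 0 ≤ b) (hD : 1 ≤ S.D) (hc0 : ∀ i, 0 < c i)
    (hG : Good S c N x0) (hX : S.Q * S.D ^ (c (Fin.last m) - b) ≤ X) :
    0 < X ∧ 0 < S.P (Fin.last m) ∧
      S.P (Fin.last m) * (1 / X + 1 / N) ≤ 2 * S.D ^ (x0 + b) ∧
      1 / X + 1 / (N : ℝ) ≤ 2 * S.D ^ (b - 2) := by
  have hD0 : 0 < S.D := by linarith
  have hQ : 0 < (S.Q : ℝ) := lt_of_lt_of_le (Real.rpow_pos_of_pos hD0 _) hG.Q1
  have hX0 : 0 < X := lt_of_lt_of_le (mul_pos hQ (Real.rpow_pos_of_pos hD0 _)) hX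
  have hP : 0 < S.P (Fin.last m) :=
    lt_of_lt_of_le (mul_pos hQ (Real.rpow_pos_of_pos hD0 _)) (hG.P1 _)
  have hN : 0 < (N : ℝ) := hQ.trans_le hG.N2
  refine ⟨hX0, hP, ?_, ?_⟩
  · have h1 : S.P (Fin.last m) * (1 / X) ≤ S.D ^ (x0 + b) := by
      rw [mul_one_div, div_le_iff₀ hX0]
      calc S.P (Fin.last m) ≤ S.Q * S.D ^ (c (Fin.last m) + x0) := hG.P2 _
        _ = S.D ^ (x0 + b) * (S.Q * S.D ^ (c (Fin.last m) - b)) := by
            rw [mul_left_comm, ← Real.rpow_add hD0]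
            congr 2
            ring
        _ ≤ S.D ^ (x0 + b) * X := mul_le_mul_of_nonneg_left hX (Real.rpow_nonneg hD0.le _)
    have h2 : S.P (Fin.last m) * (1 / N) ≤ S.D ^ (x0 + b) := by
      rw [mul_one_div, div_le_iff₀ hN]
      calc S.P (Fin.last m) ≤ N * S.D ^ x0 := hG.N1 _
        _ ≤ N * S.D ^ (x0 + b) := mul_le_mul_of_nonneg_left
            (Real.rpow_le_rpow_of_exponent_le hD (by linarith)) hN.le
        _ = _ := mul_comm _ _
    rw [mul_add]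
    linarith
  · have h1 : 1 / X ≤ S.D ^ (b - 2) := by
      rw [div_le_iff₀ hX0]
      calc (1 : ℝ) ≤ S.D ^ (c (Fin.last m)) :=
            Real.one_le_rpow hD (hc0 _).le
        _ = S.D ^ (b - 2) * (S.D ^ (2 : ℝ) * S.D ^ (c (Fin.last m) - b)) := by
            rw [← Real.rpow_add hD0, ← Real.rpow_add hD0]
            congr 1
            ring
        _ ≤ S.D ^ (b - 2) * (S.Q * S.D ^ (c (Fin.last m) - b)) := by
            have := hG.Q1
            have h5 := Real.rpow_nonneg hD0.le (c (Fin.last m) - b)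
            have h6 := Real.rpow_nonneg hD0.le (b - 2)
            exact mul_le_mul_of_nonneg_left (mul_le_mul_of_nonneg_right this h5) h6
        _ ≤ S.D ^ (b - 2) * X := mul_le_mul_of_nonneg_left hX (Real.rpow_nonneg hD0.le _)
    have h2 : 1 / (N : ℝ) ≤ S.D ^ (b - 2) := by
      rw [div_le_iff₀ hN]
      calc (1 : ℝ) ≤ S.D ^ b := Real.one_le_rpow hD hb
        _ = S.D ^ (b - 2) * S.D ^ (2 : ℝ) := by
            rw [← Real.rpow_add hD0]
            congr 1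
            ring
        _ ≤ S.D ^ (b - 2) * N := mul_le_mul_of_nonneg_left (hG.Q1.trans hG.N2)
            (Real.rpow_nonneg hD0.le _)
    linarith

end Win

/-! ### large phases -/

theorem base_large (hES : ES0) (m : ℕ) (c : Fin (m + 1) → ℝ) (hc : StrictMono c)
    (hc0 : ∀ i, 0 < c i) (hcn : ∀ i (n : ℕ), c i ≠ n) (a : ℝ) :
    ∃ εb : ℝ, 0 < εb ∧ ∀ ε : ℝ, 0 < ε → ε ≤ εb →
    ∃ x0 : ℝ, 0 < x0 ∧ ∃ σ : ℝ, 0 < σ ∧ ∃ D0 : ℝ,
    ∀ (S : Sys (m + 1)) (N : ℕ) [NeZero N], D0 ≤ S.D → Good S c N x0 →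
    ∀ X : ℝ, S.Q * S.D ^ (c (Fin.last m) - 2 * εb) ≤ X →
    ∀ f : ZMod N → ℂ, Adm (S.D ^ σ) X f →
    ∀ θ : ZMod N → Fin m → ℝ,
    ∀ E : Finset (ZMod N), (∀ x ∈ E, (∀ i, |θ x i * S.P i.castSucc| ≤ S.D ^ a) ∧
      ∃ i, S.D ^ (1 / 4 : ℝ) ≤ |θ x i * S.P i.castSucc|) →
    ∀ K : ℕ, S.D ^ (1 - ε) ≤ (K : ℝ) + 1 → (K : ℝ) ≤ S.D ^ (1 - ε) →
    𝔼 x, (if x ∈ E then locCorr S c f θ K x else 0) ≤ S.D ^ (-σ) := by
  obtain ⟨xE, hxE, σE, hσE, DE, HE⟩ := hES m 0 (fun i => c i.castSucc)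
    (hc.injective.comp (Fin.castSucc_injective m)) (fun i n => hcn _ n) 4 a (1 / 4)
    (by norm_num) (by norm_num)
  set y := min xE 1 with hy
  have hy0 : 0 < y := lt_min hxE one_pos
  have hy1 : y ≤ 1 := min_le_right _ _
  have hyE : y ≤ xE := min_le_left _ _
  refine ⟨y / 16, by positivity, fun ε hε hεy => ⟨ε / 2, by positivity, ?_⟩⟩
  obtain ⟨σ, hσ0, hσ1, hσ2, hσ3⟩ : ∃ σ : ℝ, 0 < σ ∧ σ ≤ ε / 4 ∧ σ ≤ y / 32 ∧ σ ≤ σE / 2 :=
    ⟨min (ε / 4) (min (y / 32) (σE / 2)), by positivity, min_le_left _ _,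
      (min_le_right _ _).trans (min_le_left _ _), (min_le_right _ _).trans (min_le_right _ _)⟩
  set C := Lc8 (c (Fin.last m)) with hC
  have hC0 : 0 ≤ C := Lc8_nonneg _
  have hev : ∀ᶠ D : ℝ in Filter.atTop, DE ≤ D ∧ 1 ≤ D ∧ 5 * D ^ (-σE) ≤ D ^ (-σ) ∧
      20 * D ^ (-(7 * y / 16)) ≤ D ^ (-σ) ∧ 10 * D ^ (-(ε / 2)) ≤ D ^ (-σ) ∧
      10 * C * D ^ (-(5 * y / 16)) ≤ D ^ (-σ) ∧ 10 * D ^ (-(1 : ℝ)) ≤ D ^ (-σ) ∧
      2 * D ^ (-(1 - ε)) ≤ D ^ (-(0 : ℝ)) ∧ 2 * D ^ (-(-(1 - y))) ≤ D ^ (-(-(1 - y / 2))) := by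
    filter_upwards [Filter.eventually_ge_atTop DE, Filter.eventually_ge_atTop (1 : ℝ),
      ev8 5 σE σ (by linarith), ev8 20 (7 * y / 16) σ (by linarith), ev8 10 (ε / 2) σ (by linarith),
      ev8 (10 * C) (5 * y / 16) σ (by linarith), ev8 10 1 σ (by linarith),
      ev8 2 (1 - ε) 0 (by linarith), ev8 2 (-(1 - y)) (-(1 - y / 2)) (by linarith)]
      with D h1 h2 h3 h4 h5 h6 h7 h8 h9
    exact ⟨h1, h2, h3, h4, h5, h6, h7, h8, h9⟩
  obtain ⟨D0, hD0⟩ := Filter.eventually_atTop.1 hev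
  refine ⟨σ, hσ0, D0, ?_⟩
  intro S N _ hD hG X hX f hf θ E hE K hK1 hK2
  obtain ⟨hDE, hD1, e1, e2, e3, e4, e5, e6, e7⟩ := hD0 S.D hD
  have hDp : 0 < S.D := by linarith
  rw [neg_neg, neg_neg] at e7
  rw [neg_zero, Real.rpow_zero, Real.rpow_neg hDp.le, ← div_eq_mul_inv,
    div_le_one (Real.rpow_pos_of_pos hDp _)] at e6
  obtain ⟨hX0, hP0, hPW, hW⟩ := sizes8 (b := 2 * (y / 16))
    (by positivity) hD1 hc0 hG hX
  have hN : 0 < (N : ℝ) := by exact_mod_cast Nat.pos_of_ne_zero (NeZero.ne N)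
  -- the window length
  set K2 := ⌊S.D ^ (1 - y / 2)⌋₊ with hK2d
  have hK2u : (K2 : ℝ) ≤ S.D ^ (1 - y / 2) := Nat.floor_le (Real.rpow_nonneg hDp.le _)
  have h1y : 1 ≤ S.D ^ (1 - y) := Real.one_le_rpow hD1 (by linarith)
  have hK2l : S.D ^ (1 - y) ≤ K2 := by
    have := Nat.lt_floor_add_one (S.D ^ (1 - y / 2))
    linarith
  have hK2one : 1 ≤ K2 := by exact_mod_cast h1y.trans hK2l
  have hKhalf : S.D ^ (1 - ε) / 2 ≤ K := by linarith
  have hK0 : 0 < (K : ℝ) := lt_of_lt_of_le (by positivity) hKhalf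
  have hKone : 1 ≤ K := by exact_mod_cast hK0
  have hT0 : 0 < (S.T : ℝ) := lt_of_lt_of_le (Real.rpow_pos_of_pos hDp _) hG.T1
  have hK2D : (K2 : ℝ) ≤ S.D := by
    refine hK2u.trans ?_
    calc S.D ^ (1 - y / 2) ≤ S.D ^ (1 : ℝ) :=
          Real.rpow_le_rpow_of_exponent_le hD1 (by linarith)
      _ = S.D := Real.rpow_one _
  -- pointwise bound
  have key : ∀ x : ZMod N, (if x ∈ E then locCorr S c f θ K x else 0) ≤
      (S.D ^ (-σE) + (2 * K2 / K + 2 * K / S.T)) +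
        𝔼 i ∈ range S.T, 𝔼 l ∈ range K2, ‖f (x + (S.a c (Fin.last m) (S.u + i + l) : ZMod N))
        - f (x + (S.a c (Fin.last m) (S.u + i) : ZMod N))‖ := by
    intro x
    have hnn : 0 ≤ 𝔼 i ∈ range S.T, 𝔼 l ∈ range K2,
        ‖f (x + (S.a c (Fin.last m) (S.u + i + l) : ZMod N))
        - f (x + (S.a c (Fin.last m) (S.u + i) : ZMod N))‖ :=
      expect_nonneg fun i _ => expect_nonneg fun l _ => norm_nonneg _
    have hp := Real.rpow_pos_of_pos hDp (-σE)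
    split_ifs with hx
    · refine (locCorr_le8 f hf.bdd θ K K2 hKone hK2one x).trans ?_
      have h3 : 𝔼 i ∈ range S.T, ‖𝔼 l ∈ range K2,
          (f (x + (S.a c (Fin.last m) (S.u + i + l) : ZMod N)) *
            e (ph8 S c (θ x) (S.u + i + l)))‖ ≤ 𝔼 i ∈ range S.T, (S.D ^ (-σE) +
          𝔼 l ∈ range K2, ‖f (x + (S.a c (Fin.last m) (S.u + i + l) : ZMod N))
          - f (x + (S.a c (Fin.last m) (S.u + i) : ZMod N))‖) := by
        refine expect_le_expect fun i hi => ?_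
        refine (win_large8 f hf.bdd (θ x) K2 (S.u + i) x).trans (add_le_add ?_ le_rfl)
        have hiT : (i : ℝ) ≤ S.T := by exact_mod_cast (mem_range.1 hi).le
        have h4 := HE S.D hDE S.ρ hG.ρ0 hG.ρ1 (fun i => θ x i * S.P i.castSucc) (hE x hx).1
          (hE x hx).2 0 (by simp) (S.u + i) K2
          (by push_cast; have := hG.u1; have : (0 : ℝ) ≤ i := Nat.cast_nonneg _; linarith)
          (by push_cast; have := hG.u2; linarith)
          ((Real.rpow_le_rpow_of_exponent_le hD1 (by linarith)).trans hK2l)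
        rw [expect_Ico8] at h4
        refine le_trans (le_of_eq ?_) h4
        congr 1
        refine expect_congr rfl fun l _ => ?_
        simp [ph8, Sys.t]
      rw [expect_add_distrib, expect_const (nonempty_range_iff.2 (by
        rintro h0; rw [h0] at hT0; simp at hT0))] at h3
      linarith
    · positivity
  refine (expect_le_expect fun x _ => key x).trans ?_
  rw [expect_add_distrib, expect_const univ_nonempty]
  have hsh : 𝔼 x : ZMod N, 𝔼 i ∈ range S.T, 𝔼 l ∈ range K2,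
      ‖f (x + (S.a c (Fin.last m) (S.u + i + l) : ZMod N))
        - f (x + (S.a c (Fin.last m) (S.u + i) : ZMod N))‖
      ≤ 2 * C * S.D ^ (-(5 * y / 16)) + 2 * S.D ^ (-(1 : ℝ)) := by
    rw [expect_comm]
    have hpos : 0 ≤ 2 * C * S.D ^ (-(5 * y / 16)) + 2 * S.D ^ (-(1 : ℝ)) := by positivity
    refine expect_le_of5 _ _ hpos fun i hi => ?_
    rw [expect_comm]
    refine expect_le_of5 _ _ hpos fun l hl => ?_
    have hiT : (i : ℝ) ≤ S.T := by exact_mod_cast (mem_range.1 hi).le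
    have hlK : (l : ℝ) ≤ K2 := by exact_mod_cast (mem_range.1 hl).le
    refine (l1_two8 hf.tv hX0 _ _).trans ?_
    have h5 := adiff8 (c := c) (Fin.last m) (k := S.u + i) (j := l) hD1 hG.ρ0 hG.ρ1 hP0.le
      (by push_cast; have := hG.u1; have : (0 : ℝ) ≤ i := Nat.cast_nonneg _; linarith)
      (by push_cast; have := hG.u2; linarith)
    have h6 : (l : ℝ) / S.D ≤ S.D ^ (-(y / 2)) := by
      rw [div_le_iff₀ hDp]
      calc (l : ℝ) ≤ S.D ^ (1 - y / 2) := hlK.trans hK2u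
        _ = S.D ^ (-(y / 2)) * S.D := by
            nth_rewrite 3 [← Real.rpow_one S.D]
            rw [← Real.rpow_add hDp]
            congr 1
            ring
    have h7 : |(S.a c (Fin.last m) (S.u + i + l) : ℝ) - S.a c (Fin.last m) (S.u + i)| ≤
        C * (S.P (Fin.last m) * S.D ^ (-(y / 2))) + 1 :=
      h5.trans (by gcongr)
    have hWn : 0 ≤ S.D ^ σ * (1 / X + 1 / N) := by positivity
    calc |(S.a c (Fin.last m) (S.u + i + l) : ℝ) - S.a c (Fin.last m) (S.u + i)| *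
          (S.D ^ σ * (1 / X + 1 / N))
        ≤ (C * (S.P (Fin.last m) * S.D ^ (-(y / 2))) + 1) * (S.D ^ σ * (1 / X + 1 / N)) :=
          mul_le_mul_of_nonneg_right h7 hWn
      _ = C * (S.D ^ (-(y / 2)) * S.D ^ σ) * (S.P (Fin.last m) * (1 / X + 1 / N))
          + S.D ^ σ * (1 / X + 1 / N) := by ring
      _ ≤ C * (S.D ^ (-(y / 2)) * S.D ^ σ) * (2 * S.D ^ (ε / 2 + 2 * (y / 16)))
          + S.D ^ σ * (2 * S.D ^ (2 * (y / 16) - 2)) := by gcongr
      _ = 2 * C * S.D ^ (-(y / 2) + σ + (ε / 2 + 2 * (y / 16)))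
          + 2 * S.D ^ (σ + (2 * (y / 16) - 2)) := by
          rw [Real.rpow_add hDp (-(y / 2) + σ), Real.rpow_add hDp (-(y / 2)),
            Real.rpow_add hDp σ]
          ring
      _ ≤ 2 * C * S.D ^ (-(5 * y / 16)) + 2 * S.D ^ (-(1 : ℝ)) := by
          gcongr
          · linarith
          · linarith
  have h8 : 2 * (K2 : ℝ) / K ≤ 4 * S.D ^ (-(7 * y / 16)) := by
    rw [div_le_iff₀ hK0]
    calc 2 * (K2 : ℝ) ≤ 2 * S.D ^ (1 - y / 2) := by linarith
      _ ≤ 2 * S.D ^ (-(7 * y / 16) + (1 - ε)) := by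
          gcongr
          linarith
      _ = 4 * S.D ^ (-(7 * y / 16)) * (S.D ^ (1 - ε) / 2) := by
          rw [Real.rpow_add hDp]
          ring
      _ ≤ _ := by gcongr
  have h9 : 2 * (K : ℝ) / S.T ≤ 2 * S.D ^ (-(ε / 2)) := by
    rw [div_le_iff₀ hT0]
    calc 2 * (K : ℝ) ≤ 2 * S.D ^ (1 - ε) := by linarith
      _ = 2 * S.D ^ (-(ε / 2)) * S.D ^ (1 - ε / 2) := by
          rw [mul_assoc, ← Real.rpow_add hDp]
          congr 2
          ring
      _ ≤ _ := by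
          have := hG.T1
          gcongr
  linarith

/-! ### small phases -/

private theorem split8 {N : ℕ} (f : ZMod N → ℂ) (b : ℕ → ℤ) (K : ℕ)
    (hb : ∀ j < K, b j ≤ b (j + 1)) (x : ZMod N) :
    b 0 ≤ b K ∧ ∑ z ∈ range (b K - b 0).toNat, f (x + (b 0 : ZMod N) + (z : ZMod N)) =
      ∑ j ∈ range K, ∑ z ∈ range (b (j + 1) - b j).toNat, f (x + (b j : ZMod N) + (z : ZMod N)) := by
  induction K with
  | zero => simp
  | succ K ih =>
    obtain ⟨h0, ih⟩ := ih fun j hj => hb j (by omega)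
    have h1 := hb K (by omega)
    refine ⟨h0.trans h1, ?_⟩
    rw [sum_range_succ, ← ih]
    have h2 : (b (K + 1) - b 0).toNat = (b K - b 0).toNat + (b (K + 1) - b K).toNat := by omega
    rw [h2, sum_range_add]
    congr 1
    refine sum_congr rfl fun z _ => ?_
    have h3 : (((b K - b 0).toNat : ℕ) : ZMod N) = (b K : ZMod N) - (b 0 : ZMod N) := by
      have : (((b K - b 0).toNat : ℕ) : ℤ) = b K - b 0 := Int.toNat_of_nonneg (by omega)
      rw [← Int.cast_natCast, this]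
      push_cast
      rfl
    push_cast
    rw [h3]
    congr 1
    ring

/-- replacing the average over `j` by the average over `z` -/
private theorem gaps8 {N : ℕ} [NeZero N] {f : ZMod N → ℂ} {B X : ℝ} (hf : Adm B X f) (hX : 0 < X)
    (b : ℕ → ℤ) (K : ℕ) (hK : 1 ≤ K) (hb : ∀ j < K, b j ≤ b (j + 1)) (G R : ℝ) (hG : 0 < G)
    (hR : 0 ≤ R) (hgap : ∀ j < K, |((b (j + 1) : ℝ) - b j) - G| ≤ R) (hRG : R ≤ G / 2) :
    ∃ Z : ℕ, K * G / 2 ≤ Z ∧ 𝔼 x, ‖𝔼 j ∈ range K, f (x + (b j : ZMod N))‖ ≤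
      nrm (A Z f) + ((G + R) * (B * (1 / X + 1 / N)) + 4 * (R / G)) := by
  have hKr : 0 < (K : ℝ) := by exact_mod_cast hK
  have hN : 0 < (N : ℝ) := by exact_mod_cast Nat.pos_of_ne_zero (NeZero.ne N)
  have hB : 0 ≤ B := hf.tv.nonneg
  set Z := (b K - b 0).toNat with hZ
  set g : ℕ → ℕ := fun j => (b (j + 1) - b j).toNat with hg
  have hgr : ∀ j < K, (g j : ℝ) = (b (j + 1) : ℝ) - b j := by
    intro j hj
    have h1 : ((g j : ℕ) : ℤ) = b (j + 1) - b j :=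
      Int.toNat_of_nonneg (by have := hb j hj; omega)
    have h2 : (((g j : ℕ) : ℤ) : ℝ) = ((b (j + 1) - b j : ℤ) : ℝ) := by rw [h1]
    push_cast at h2
    exact h2
  have hsum : ∑ j ∈ range K, (g j : ℝ) = Z := by
    have h1 : ((Z : ℕ) : ℤ) = b K - b 0 :=
      Int.toNat_of_nonneg (by have := (split8 f b K hb 0).1; omega)
    have h2 : (((Z : ℕ) : ℤ) : ℝ) = ((b K - b 0 : ℤ) : ℝ) := by rw [h1]
    push_cast at h2
    rw [h2, ← Finset.sum_range_sub (fun j => (b j : ℝ)) K]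
    exact sum_congr rfl fun j hj => hgr j (mem_range.1 hj)
  have hZG : |(Z : ℝ) - K * G| ≤ K * R := by
    rw [← hsum]
    have h1 : ∑ j ∈ range K, (g j : ℝ) - K * G = ∑ j ∈ range K, ((g j : ℝ) - G) := by
      rw [sum_sub_distrib, sum_const, card_range, nsmul_eq_mul]
    rw [h1]
    refine (abs_sum_le_sum_abs _ _).trans ?_
    refine (sum_le_card_nsmul _ _ R fun j hj => ?_).trans (le_of_eq ?_)
    · rw [hgr j (mem_range.1 hj)]
      exact hgap j (mem_range.1 hj)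
    · rw [card_range, nsmul_eq_mul]
  have hZl : K * G / 2 ≤ Z := by
    have h1 := (abs_le.1 hZG).1
    have h2 : K * R ≤ K * (G / 2) := mul_le_mul_of_nonneg_left hRG hKr.le
    linarith
  have hZ0 : 0 < (Z : ℝ) := lt_of_lt_of_le (by positivity) hZl
  refine ⟨Z, hZl, ?_⟩
  have hWn : 0 ≤ B * (1 / X + 1 / (N : ℝ)) := by positivity
  -- pointwise
  have key : ∀ x : ZMod N, ‖𝔼 j ∈ range K, f (x + (b j : ZMod N))‖ ≤
      ‖A Z f (x + (b 0 : ZMod N))‖ + (∑ j ∈ range K, ∑ z ∈ range (g j),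
        ‖f (x + ((b j + z : ℤ) : ZMod N)) - f (x + (b j : ZMod N))‖) / Z + 4 * (R / G) := by
    intro x
    have hU : A Z f (x + (b 0 : ZMod N)) =
        (∑ j ∈ range K, ∑ z ∈ range (g j), f (x + (b j : ZMod N) + (z : ZMod N))) / Z := by
      unfold A
      rw [expect_eq_sum_div_card, card_range, (split8 f b K hb x).2]
    have hV : 𝔼 j ∈ range K, f (x + (b j : ZMod N)) =
        (∑ j ∈ range K, f (x + (b j : ZMod N))) / K := by
      rw [expect_eq_sum_div_card, card_range]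
    have hdec : 𝔼 j ∈ range K, f (x + (b j : ZMod N)) = A Z f (x + (b 0 : ZMod N))
        - (∑ j ∈ range K, ∑ z ∈ range (g j),
          (f (x + (b j : ZMod N) + (z : ZMod N)) - f (x + (b j : ZMod N)))) / Z
        + ∑ j ∈ range K, ((1 / (K : ℂ)) - (g j : ℂ) / Z) * f (x + (b j : ZMod N)) := by
      rw [hU, hV]
      simp only [sum_sub_distrib, sum_const, card_range, nsmul_eq_mul, sub_mul, sub_div,
        sum_div]
      have h1 : ∑ j ∈ range K, (g j : ℂ) * f (x + (b j : ZMod N)) / Z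
          = ∑ j ∈ range K, (g j : ℂ) / Z * f (x + (b j : ZMod N)) :=
        sum_congr rfl fun j _ => by ring
      have h2 : ∑ j ∈ range K, f (x + (b j : ZMod N)) / (K : ℂ)
          = ∑ j ∈ range K, 1 / (K : ℂ) * f (x + (b j : ZMod N)) :=
        sum_congr rfl fun j _ => by ring
      rw [h1, h2]
      ring
    rw [hdec]
    refine (norm_add_le _ _).trans (add_le_add ((norm_sub_le _ _).trans
      (add_le_add le_rfl ?_)) ?_)
    · rw [norm_div, Complex.norm_natCast]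
      refine div_le_div_of_nonneg_right ?_ hZ0.le
      refine (norm_sum_le _ _).trans (sum_le_sum fun j _ => (norm_sum_le _ _).trans
        (le_of_eq (sum_congr rfl fun z _ => ?_)))
      push_cast
      rw [add_assoc]
    · refine (norm_sum_le _ _).trans ?_
      refine (sum_le_card_nsmul _ _ (4 * (R / G) / K) fun j hj => ?_).trans (le_of_eq ?_)
      · rw [norm_mul]
        refine (mul_le_of_le_one_right (norm_nonneg _) (hf.bdd _)).trans ?_
        have h1 : (1 / (K : ℂ)) - (g j : ℂ) / Z = ((1 / (K : ℝ) - (g j : ℝ) / Z : ℝ) : ℂ) := by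
          push_cast; rfl
        rw [h1, Complex.norm_real, Real.norm_eq_abs]
        have h2 : 1 / (K : ℝ) - (g j : ℝ) / Z = (Z - K * g j) / (K * Z) := by
          field_simp
        rw [h2, abs_div, abs_of_pos (mul_pos hKr hZ0), div_le_iff₀ (mul_pos hKr hZ0)]
        have h3 := hgap j (mem_range.1 hj)
        rw [← hgr j (mem_range.1 hj)] at h3
        have h4 : |(Z : ℝ) - K * g j| ≤ 2 * (K * R) := by
          have h5 : (Z : ℝ) - K * g j = (Z - K * G) - K * (g j - G) := by ring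
          rw [h5]
          refine (abs_sub _ _).trans ?_
          rw [abs_mul, abs_of_pos hKr]
          have := mul_le_mul_of_nonneg_left h3 hKr.le
          linarith
        refine h4.trans ?_
        have h6 : 4 * (R / G) / K * (K * Z) = 4 * (R / G) * Z := by
          field_simp
        rw [h6]
        have h7 : 2 * (K * R) = 4 * (R / G) * (K * G / 2) := by
          field_simp
          ring
        rw [h7]
        exact mul_le_mul_of_nonneg_left hZl (by positivity)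
      · rw [card_range, nsmul_eq_mul]
        field_simp
  refine (expect_le_expect fun x _ => key x).trans ?_
  rw [expect_add_distrib, expect_add_distrib, expect_const univ_nonempty]
  have e1 : 𝔼 x : ZMod N, ‖A Z f (x + (b 0 : ZMod N))‖ = nrm (A Z f) :=
    expect_shift (fun x => ‖A Z f x‖) _
  have e2 : 𝔼 x : ZMod N, (∑ j ∈ range K, ∑ z ∈ range (g j),
        ‖f (x + ((b j + z : ℤ) : ZMod N)) - f (x + (b j : ZMod N))‖) / Z
      ≤ (G + R) * (B * (1 / X + 1 / N)) := by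
    rw [← expect_div, div_le_iff₀ hZ0, expect_sum_comm]
    have e3 : ∀ j ∈ range K, 𝔼 x : ZMod N, ∑ z ∈ range (g j),
        ‖f (x + ((b j + z : ℤ) : ZMod N)) - f (x + (b j : ZMod N))‖
        ≤ g j * ((G + R) * (B * (1 / X + 1 / N))) := by
      intro j hj
      rw [expect_sum_comm]
      refine (sum_le_card_nsmul _ _ ((G + R) * (B * (1 / X + 1 / N))) fun z hz => ?_).trans
        (le_of_eq ?_)
      · refine (l1_two8 hf.tv hX _ _).trans (mul_le_mul_of_nonneg_right ?_ hWn)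
        push_cast
        have h1 : (z : ℝ) ≤ g j := by exact_mod_cast (mem_range.1 hz).le
        have h2 := (abs_le.1 (hgap j (mem_range.1 hj))).2
        rw [← hgr j (mem_range.1 hj)] at h2
        rw [add_sub_cancel_left, Nat.abs_cast]
        linarith
      · rw [card_range, nsmul_eq_mul]
    refine (sum_le_sum e3).trans (le_of_eq ?_)
    rw [← sum_mul, hsum]
    ring
  rw [e1]
  linarith

/-- the averages over short windows are controlled by averages over intervals -/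
private theorem window_le8 {m N : ℕ} [NeZero N] {S : Sys (m + 1)} {c : Fin (m + 1) → ℝ}
    {f : ZMod N → ℂ} {B X : ℝ} (hf : Adm B X f) (hX : 0 < X) (hD : 1 ≤ S.D) (h0 : 0 ≤ S.ρ)
    (h1 : S.ρ ≤ 1) (i : Fin (m + 1)) (hci : 0 < c i) (hP : 0 < S.P i) (k K : ℕ) (hK : 1 ≤ K)
    (hk : S.D ≤ k) (hk3 : (k : ℝ) + K ≤ 3 * S.D) {r : ℝ} (hr : (K : ℝ) / S.D ≤ r)
    (hRG : 1 + S.P i * c i / S.D * (Lc8 (c i - 1) * r) ≤
      S.P i * c i / S.D * (4 : ℝ) ^ (-|c i - 1|) / 2) :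
    ∃ Z : ℕ, K * (S.P i * c i / S.D * (4 : ℝ) ^ (-|c i - 1|)) / 2 ≤ Z ∧
      𝔼 x, ‖𝔼 j ∈ range K, f (x + (S.a c i (k + j) : ZMod N))‖ ≤
      nrm (A Z f) + ((2 * (S.P i * c i / S.D * (4 : ℝ) ^ |c i - 1|)) * (B * (1 / X + 1 / N)) +
        4 * ((1 + S.P i * c i / S.D * (Lc8 (c i - 1) * r)) /
          (S.P i * c i / S.D * (4 : ℝ) ^ (-|c i - 1|)))) := by
  have hDp : 0 < S.D := by linarith
  have hN : 0 < (N : ℝ) := by exact_mod_cast Nat.pos_of_ne_zero (NeZero.ne N)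
  have hB : 0 ≤ B := hf.tv.nonneg
  set M := S.P i * c i / S.D with hM
  have hM0 : 0 < M := by positivity
  have htk := t_mem8 hD h0 h1 hk (by have : (0 : ℝ) ≤ K := Nat.cast_nonneg _; linarith)
  have hb8 := rpow_bounds8 (c i - 1) (S.t k) htk.1 htk.2
  set G := M * S.t k ^ (c i - 1) with hG
  set R := 1 + M * (Lc8 (c i - 1) * r) with hR
  have h4p : 0 < (4 : ℝ) ^ (-|c i - 1|) := by positivity
  have hG0 : 0 < G := mul_pos hM0 (h4p.trans_le hb8.1)
  have hr0 : 0 ≤ r := le_trans (by positivity) hr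
  have hR0 : 0 ≤ R := by
    have := Lc8_nonneg (c i - 1)
    positivity
  have hGl : M * (4 : ℝ) ^ (-|c i - 1|) ≤ G := mul_le_mul_of_nonneg_left hb8.1 hM0.le
  have hGu : G ≤ M * (4 : ℝ) ^ |c i - 1| := mul_le_mul_of_nonneg_left hb8.2 hM0.le
  have hRG' : R ≤ G / 2 := by linarith
  have hstep : ∀ j < K, 1 ≤ S.t (k + j) ∧ S.t (k + (j + 1)) ≤ 4 ∧
      S.t (k + (j + 1)) - S.t (k + j) = 1 / S.D ∧ S.t (k + (j + 1)) - S.t k ≤ r := by
    intro j hj
    have hjK : (j : ℝ) + 1 ≤ K := by exact_mod_cast hj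
    have hj0 : (0 : ℝ) ≤ j := Nat.cast_nonneg _
    have e1 := t_mem8 (S := S) (k := k + j) hD h0 h1 (by push_cast; linarith)
      (by push_cast; linarith)
    have e2 := t_mem8 (S := S) (k := k + (j + 1)) hD h0 h1 (by push_cast; linarith)
      (by push_cast; linarith)
    refine ⟨e1.1, e2.2, ?_, ?_⟩
    · have := t_add8 (S := S) (k + j) 1
      rw [Nat.cast_one] at this
      rw [← this]
      rfl
    · rw [t_add8]
      refine le_trans ?_ hr
      push_cast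
      gcongr
  have hmono : ∀ j < K, S.a c i (k + j) ≤ S.a c i (k + (j + 1)) := by
    intro j hj
    obtain ⟨e1, e2, e3, e4⟩ := hstep j hj
    unfold Sys.a
    refine Int.floor_le_floor (mul_le_mul_of_nonneg_left ?_ hP.le)
    refine Real.rpow_le_rpow (by linarith) ?_ hci.le
    have : 0 < 1 / S.D := by positivity
    linarith
  have hgap : ∀ j < K, |((S.a c i (k + (j + 1)) : ℝ) - S.a c i (k + j)) - G| ≤ R := by
    intro j hj
    obtain ⟨e1, e2, e3, e4⟩ := hstep j hj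
    have hDi : 0 < 1 / S.D := by positivity
    obtain ⟨ξ, g1, g2, g3⟩ := mv8 (c i) (S.t (k + j)) (S.t (k + (j + 1))) e1 (by linarith)
    have hf8 := floor8 (S.P i * S.t (k + (j + 1)) ^ c i) (S.P i * S.t (k + j) ^ c i)
    have htj : S.t k ≤ S.t (k + j) := by
      have := t_add8 (S := S) k j
      have h3 : 0 ≤ (j : ℝ) / S.D := by positivity
      linarith
    have h5 : S.P i * S.t (k + (j + 1)) ^ c i - S.P i * S.t (k + j) ^ c i = M * ξ ^ (c i - 1) := by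
      rw [← mul_sub, g3, e3, hM]
      field_simp
    rw [h5] at hf8
    have h6 := lip8 (c i - 1) (S.t k) ξ htk.1 (by linarith) (by linarith)
    have h7 : |M * ξ ^ (c i - 1) - G| ≤ M * (Lc8 (c i - 1) * r) := by
      rw [hG, ← mul_sub, abs_mul, abs_of_pos hM0]
      refine mul_le_mul_of_nonneg_left (h6.trans ?_) hM0.le
      exact mul_le_mul_of_nonneg_left (by linarith) (Lc8_nonneg _)
    unfold Sys.a
    rw [abs_le] at hf8 h7 ⊢
    constructor <;> linarith [hf8.1, hf8.2, h7.1, h7.2]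
  obtain ⟨Z, hZ1, hZ2⟩ := gaps8 hf hX (fun j => S.a c i (k + j)) K hK hmono G R hG0 hR0 hgap hRG'
  have hKr : 0 < (K : ℝ) := by exact_mod_cast hK
  refine ⟨Z, le_trans ?_ hZ1, hZ2.trans ?_⟩
  · gcongr
  · have hWn : 0 ≤ B * (1 / X + 1 / (N : ℝ)) := by positivity
    gcongr
    linarith

theorem base_small (m : ℕ) (c : Fin (m + 1) → ℝ) (hc : StrictMono c)
    (hc0 : ∀ i, 0 < c i) (n : ℕ) : ∀ ε2 : ℝ, 0 < ε2 → ε2 ≤ 1 / 16 →
    ∀ ε : ℝ, 0 < ε → ε ≤ ε2 →
    ∃ x0 : ℝ, 0 < x0 ∧ ∃ C : ℕ, ∃ σ : ℝ, 0 < σ ∧ ∃ D0 : ℝ,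
    ∀ (S : Sys (m + 1)) (N : ℕ) [NeZero N], D0 ≤ S.D → Good S c N x0 →
    ∀ δ : ℝ, S.D ^ (-σ) ≤ δ → δ ≤ 1 / 2 →
    ∀ X : ℝ, S.Q * S.D ^ (c (Fin.last m) - 1 / 4) ≤ X →
    ∀ f : ZMod N → ℂ, Adm δ⁻¹ X f →
    ∀ θ : ZMod N → Fin m → ℝ,
    ∀ E : Finset (ZMod N), (∀ x ∈ E, ∀ i, |θ x i * S.P i.castSucc| ≤ S.D ^ ε2) →
    ∀ K : ℕ, S.D ^ (1 - ε) ≤ (K : ℝ) + 1 → (K : ℝ) ≤ S.D ^ (1 - ε) →
    δ ^ n ≤ 𝔼 x, (if x ∈ E then locCorr S c f θ K x else 0) →
    ∀ L : ℕ, 1 ≤ L → (L : ℝ) ≤ S.P (Fin.last m) * S.D ^ (-(4 * ε2)) → δ ^ C ≤ nrm (A L f) := by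
  intro ε2 hε2 hε2' ε hε hεε2
  -- constants
  set cl := c (Fin.last m) with hcl
  have hcl0 : 0 < cl := hc0 _
  set κ := (4 : ℝ) ^ (-|cl - 1|) with hκ
  have hκ0 : 0 < κ := by positivity
  set κ' := (4 : ℝ) ^ |cl - 1| with hκ'
  have hκ'0 : 0 < κ' := by positivity
  set L1 := Lc8 (cl - 1) with hL1
  have hL10 : 0 ≤ L1 := Lc8_nonneg _
  set C4 := ∑ i : Fin m, Lc8 (c i.castSucc) with hC4
  have hC40 : 0 ≤ C4 := sum_nonneg fun i _ => Lc8_nonneg _
  set C1 := 1 / (cl * κ) + L1 / κ with hC1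
  have hC10 : 0 < C1 := by positivity
  set C2 := 4 * cl * κ' with hC2
  have hC20 : 0 < C2 := by positivity
  set C3 := 8 / (cl * κ) with hC3
  have hC30 : 0 < C3 := by positivity
  set Ct := 2 * Real.pi * C4 + 4 + 2 + C2 + 4 * C1 + C3 with hCt
  set σ := ε / (8 * (n + 1)) with hσ
  have hσ0 : 0 < σ := by positivity
  have hn0 : (0 : ℝ) ≤ n := Nat.cast_nonneg _
  have hσn : σ * n ≤ ε / 8 := by
    rw [hσ, div_mul_eq_mul_div, div_le_div_iff₀ (by positivity) (by norm_num)]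
    nlinarith
  have hσ1 : σ ≤ ε / 8 := by
    rw [hσ]
    refine div_le_div_of_nonneg_left hε.le (by norm_num) ?_
    linarith
  have hev : ∀ᶠ D : ℝ in Filter.atTop, 1 ≤ D ∧ 2 * Ct * D ^ (-(ε / 2)) ≤ D ^ (-(ε / 8)) ∧
      2 * C1 * D ^ (-(ε / 2)) ≤ D ^ (-(0 : ℝ)) ∧
      2 * D ^ (-(1 - 2 * ε2)) ≤ D ^ (-(0 : ℝ)) := by
    filter_upwards [Filter.eventually_ge_atTop (1 : ℝ), ev8 (2 * Ct) (ε / 2) (ε / 8) (by linarith),
      ev8 (2 * C1) (ε / 2) 0 (by linarith), ev8 2 (1 - 2 * ε2) 0 (by linarith)]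
      with D h1 h2 h3 h4
    exact ⟨h1, h2, h3, h4⟩
  obtain ⟨D0, hD0⟩ := Filter.eventually_atTop.1 hev
  refine ⟨ε / 2, by positivity, n + 1, σ, hσ0, D0, ?_⟩
  intro S N _ hD hG δ hδ1 hδ2 X hX f hf θ E hE K hK1 hK2 hcor L hL1' hL2
  obtain ⟨hD1, e1, e2, e3⟩ := hD0 S.D hD
  have hDp : 0 < S.D := by linarith
  have hδ0 : 0 < δ := (Real.rpow_pos_of_pos hDp _).trans_le hδ1
  rw [neg_zero, Real.rpow_zero] at e2
  rw [neg_zero, Real.rpow_zero, Real.rpow_neg hDp.le, ← div_eq_mul_inv,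
    div_le_one (Real.rpow_pos_of_pos hDp _)] at e3
  obtain ⟨hX0, hP0, hPW, hW⟩ := sizes8 (b := 1 / 4) (by norm_num) hD1 hc0 hG hX
  have hN : 0 < (N : ℝ) := by exact_mod_cast Nat.pos_of_ne_zero (NeZero.ne N)
  have hq : 0 < S.D ^ (-(ε / 2)) := Real.rpow_pos_of_pos hDp _
  -- monotonicity of powers
  have pw : ∀ α β : ℝ, α ≤ β → S.D ^ α ≤ S.D ^ β := fun α β h =>
    Real.rpow_le_rpow_of_exponent_le hD1 h
  set K3 := ⌊S.D ^ (1 - 2 * ε2)⌋₊ with hK3d
  have hK3u : (K3 : ℝ) ≤ S.D ^ (1 - 2 * ε2) := Nat.floor_le (Real.rpow_nonneg hDp.le _)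
  have hK3l : S.D ^ (1 - 2 * ε2) / 2 ≤ K3 := by
    have := Nat.lt_floor_add_one (S.D ^ (1 - 2 * ε2))
    linarith
  have hK30 : 0 < (K3 : ℝ) := lt_of_lt_of_le (by positivity) hK3l
  have hK3one : 1 ≤ K3 := by exact_mod_cast hK30
  have hKhalf : S.D ^ (1 - ε) / 2 ≤ K := by
    have := pw (1 - 2 * ε2) (1 - ε) (by linarith)
    linarith
  have hK0 : 0 < (K : ℝ) := lt_of_lt_of_le (by positivity) hKhalf
  have hKone : 1 ≤ K := by exact_mod_cast hK0
  have hT0 : 0 < (S.T : ℝ) := lt_of_lt_of_le (Real.rpow_pos_of_pos hDp _) hG.T1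
  have hK3D : (K3 : ℝ) ≤ S.D := by
    refine hK3u.trans ((pw (1 - 2 * ε2) 1 (by linarith)).trans (le_of_eq (Real.rpow_one _)))
  have hr : (K3 : ℝ) / S.D ≤ S.D ^ (-(2 * ε2)) := by
    rw [div_le_iff₀ hDp]
    calc (K3 : ℝ) ≤ S.D ^ (1 - 2 * ε2) := hK3u
      _ = S.D ^ (-(2 * ε2)) * S.D := by
          nth_rewrite 3 [← Real.rpow_one S.D]
          rw [← Real.rpow_add hDp]
          congr 1
          ring
  -- phases
  have key : ∀ x : ZMod N, (if x ∈ E then locCorr S c f θ K x else 0) ≤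
      (2 * Real.pi * (C4 * S.D ^ (-ε2)) + (2 * K3 / K + 2 * K / S.T)) +
        𝔼 i ∈ range S.T, ‖𝔼 l ∈ range K3,
          f (x + (S.a c (Fin.last m) (S.u + i + l) : ZMod N))‖ := by
    intro x
    have hnn : 0 ≤ 𝔼 i ∈ range S.T, ‖𝔼 l ∈ range K3,
          f (x + (S.a c (Fin.last m) (S.u + i + l) : ZMod N))‖ :=
      expect_nonneg fun i _ => norm_nonneg _
    split_ifs with hx
    · refine (locCorr_le8 f hf.bdd θ K K3 hKone hK3one x).trans ?_
      have h3 : 𝔼 i ∈ range S.T, ‖𝔼 l ∈ range K3,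
          (f (x + (S.a c (Fin.last m) (S.u + i + l) : ZMod N)) *
            e (ph8 S c (θ x) (S.u + i + l)))‖ ≤ 𝔼 i ∈ range S.T, (‖𝔼 l ∈ range K3,
          f (x + (S.a c (Fin.last m) (S.u + i + l) : ZMod N))‖ +
            2 * Real.pi * (C4 * S.D ^ (-ε2))) := by
        refine expect_le_expect fun i hi => ?_
        have hiT : (i : ℝ) ≤ S.T := by exact_mod_cast (mem_range.1 hi).le
        refine win_small8 f hf.bdd (θ x) K3 (S.u + i) x (by positivity) fun l hl => ?_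
        have hlK : (l : ℝ) ≤ K3 := by exact_mod_cast (mem_range.1 hl).le
        unfold ph8
        rw [← sum_sub_distrib, hC4, sum_mul]
        refine (abs_sum_le_sum_abs _ _).trans (sum_le_sum fun i' _ => ?_)
        rw [← mul_sub, abs_mul]
        have h5 := tpow8 (S := S) (c i'.castSucc) (k := S.u + i) (j := l) hD1 hG.ρ0 hG.ρ1
          (by push_cast; have := hG.u1; have : (0 : ℝ) ≤ i := Nat.cast_nonneg _; linarith)
          (by push_cast; have := hG.u2; linarith)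
        have h6 : (l : ℝ) / S.D ≤ S.D ^ (-(2 * ε2)) := le_trans (by gcongr) hr
        have h7 : Lc8 (c i'.castSucc) * ((l : ℝ) / S.D) ≤
            Lc8 (c i'.castSucc) * S.D ^ (-(2 * ε2)) :=
          mul_le_mul_of_nonneg_left h6 (Lc8_nonneg _)
        calc _ ≤ S.D ^ ε2 * (Lc8 (c i'.castSucc) * S.D ^ (-(2 * ε2))) :=
              mul_le_mul (hE x hx i') (h5.trans h7) (abs_nonneg _) (Real.rpow_nonneg hDp.le _)
          _ = Lc8 (c i'.castSucc) * S.D ^ (-ε2) := by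
              rw [mul_left_comm, ← Real.rpow_add hDp]
              congr 2
              ring
      rw [expect_add_distrib, expect_const (nonempty_range_iff.2 (by
        rintro h0; rw [h0] at hT0; simp at hT0))] at h3
      linarith
    · positivity
  have hcor2 := hcor.trans (expect_le_expect fun x _ => key x)
  rw [expect_add_distrib, expect_const univ_nonempty, expect_comm] at hcor2
  -- windows
  have hwin : 𝔼 i ∈ range S.T, 𝔼 x : ZMod N, ‖𝔼 l ∈ range K3,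
      f (x + (S.a c (Fin.last m) (S.u + i + l) : ZMod N))‖ ≤
      nrm (A L f) + (C2 + 4 * C1 + C3) * S.D ^ (-(ε / 2)) := by
    have hnn : 0 ≤ nrm (A L f) := nrm_nonneg _
    refine expect_le_of5 _ _ (by positivity) fun i hi => ?_
    have hiT : (i : ℝ) ≤ S.T := by exact_mod_cast (mem_range.1 hi).le
    set P := S.P (Fin.last m) with hP
    have hM0 : 0 < P * cl / S.D := by positivity
    -- `D / P` is small
    have hDP : S.D / P ≤ S.D ^ (-(ε / 2)) := by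
      rw [div_le_iff₀ hP0]
      calc S.D = S.D ^ (-(ε / 2)) * S.D ^ (1 + ε / 2) := by
            rw [← Real.rpow_add hDp]
            nth_rewrite 1 [← Real.rpow_one S.D]
            congr 1
            ring
        _ ≤ S.D ^ (-(ε / 2)) * P := by
            refine mul_le_mul_of_nonneg_left ?_ hq.le
            calc S.D ^ (1 + ε / 2) ≤ S.D ^ ((2 : ℝ) + (cl - ε / 2)) := pw _ _ (by linarith)
              _ = S.D ^ (2 : ℝ) * S.D ^ (cl - ε / 2) := Real.rpow_add hDp _ _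
              _ ≤ S.Q * S.D ^ (cl - ε / 2) :=
                  mul_le_mul_of_nonneg_right hG.Q1 (Real.rpow_nonneg hDp.le _)
              _ ≤ P := hG.P1 _
    have hRG : (1 + P * cl / S.D * (L1 * S.D ^ (-(2 * ε2)))) / (P * cl / S.D * κ) ≤
        C1 * S.D ^ (-(ε / 2)) := by
      rw [add_div, hC1, add_mul]
      refine add_le_add ?_ ?_
      · calc 1 / (P * cl / S.D * κ) = 1 / (cl * κ) * (S.D / P) := by field_simp
          _ ≤ _ := by gcongr
      · calc P * cl / S.D * (L1 * S.D ^ (-(2 * ε2))) / (P * cl / S.D * κ)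
            = L1 / κ * S.D ^ (-(2 * ε2)) := by field_simp
          _ ≤ _ := by
              have := pw (-(2 * ε2)) (-(ε / 2)) (by linarith)
              gcongr
    have hRG' : 1 + P * cl / S.D * (L1 * S.D ^ (-(2 * ε2))) ≤ P * cl / S.D * κ / 2 := by
      rw [div_le_iff₀ (by positivity)] at hRG
      have h5 : C1 * S.D ^ (-(ε / 2)) ≤ 1 / 2 := by linarith
      have h6 := mul_le_mul_of_nonneg_right h5 (by positivity : 0 ≤ P * cl / S.D * κ)
      linarith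
    obtain ⟨Z, hZ1, hZ2⟩ := window_le8 hf hX0 hD1 hG.ρ0 hG.ρ1 (Fin.last m) hcl0 hP0
      (S.u + i) K3 hK3one
      (by push_cast; have := hG.u1; have : (0 : ℝ) ≤ i := Nat.cast_nonneg _; linarith)
      (by push_cast; have := hG.u2; linarith) hr hRG'
    refine hZ2.trans ?_
    have hZ0 : 0 < (Z : ℝ) := lt_of_lt_of_le (by positivity) hZ1
    have hZone : 1 ≤ Z := by exact_mod_cast hZ0
    have h7 := nrm_A_mono hf.bdd L Z hL1' hZone
    have h8 : 2 * (L : ℝ) / Z ≤ C3 * S.D ^ (-(ε / 2)) := by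
      rw [div_le_iff₀ hZ0]
      calc 2 * (L : ℝ) ≤ 2 * (P * S.D ^ (-(4 * ε2))) := by linarith
        _ = C3 * S.D ^ (-(2 * ε2)) * (S.D ^ (1 - 2 * ε2) / 2 * (P * cl / S.D * κ) / 2) := by
            have h9 : S.D ^ (-(4 * ε2)) = S.D ^ (-(2 * ε2)) * S.D ^ (1 - 2 * ε2) / S.D := by
              rw [← Real.rpow_add hDp, eq_div_iff hDp.ne']
              nth_rewrite 2 [← Real.rpow_one S.D]
              rw [← Real.rpow_add hDp]
              congr 1
              ring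
            rw [h9, hC3]
            field_simp
            ring
        _ ≤ C3 * S.D ^ (-(ε / 2)) * Z := by
            have := pw (-(2 * ε2)) (-(ε / 2)) (by linarith)
            refine mul_le_mul (by gcongr) (le_trans ?_ hZ1) (by positivity) (by positivity)
            gcongr
    have h10 : 2 * (P * cl / S.D * κ') * (δ⁻¹ * (1 / X + 1 / N)) ≤ C2 * S.D ^ (-(ε / 2)) := by
      have h11 : δ⁻¹ ≤ S.D ^ σ := by
        rw [inv_le_comm₀ hδ0 (Real.rpow_pos_of_pos hDp _), ← Real.rpow_neg hDp.le]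
        exact hδ1
      have hWn : 0 ≤ 1 / X + 1 / (N : ℝ) := by positivity
      calc 2 * (P * cl / S.D * κ') * (δ⁻¹ * (1 / X + 1 / N))
          = 2 * cl * κ' * (δ⁻¹ * (P * (1 / X + 1 / N)) * (1 / S.D)) := by field_simp
        _ ≤ 2 * cl * κ' * (S.D ^ σ * (2 * S.D ^ (ε / 2 + 1 / 4)) * (1 / S.D)) := by gcongr
        _ = C2 * (S.D ^ σ * S.D ^ (ε / 2 + 1 / 4) * S.D ^ (-(1 : ℝ))) := by
            rw [Real.rpow_neg_one, hC2]
            ring
        _ = C2 * S.D ^ (σ + (ε / 2 + 1 / 4) + -(1 : ℝ)) := by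
            rw [Real.rpow_add hDp (σ + (ε / 2 + 1 / 4)), Real.rpow_add hDp σ]
        _ ≤ _ := by
            have := pw (σ + (ε / 2 + 1 / 4) + -(1 : ℝ)) (-(ε / 2)) (by linarith)
            gcongr
    linarith
  have h8 : 2 * (K3 : ℝ) / K ≤ 4 * S.D ^ (-(ε / 2)) := by
    rw [div_le_iff₀ hK0]
    calc 2 * (K3 : ℝ) ≤ 2 * S.D ^ (1 - 2 * ε2) := by linarith
      _ ≤ 2 * S.D ^ (-(ε / 2) + (1 - ε)) := by
          have := pw (1 - 2 * ε2) (-(ε / 2) + (1 - ε)) (by linarith)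
          linarith
      _ = 4 * S.D ^ (-(ε / 2)) * (S.D ^ (1 - ε) / 2) := by
          rw [Real.rpow_add hDp]
          ring
      _ ≤ _ := by gcongr
  have h9 : 2 * (K : ℝ) / S.T ≤ 2 * S.D ^ (-(ε / 2)) := by
    rw [div_le_iff₀ hT0]
    calc 2 * (K : ℝ) ≤ 2 * S.D ^ (1 - ε) := by linarith
      _ = 2 * S.D ^ (-(ε / 2)) * S.D ^ (1 - ε / 2) := by
          rw [mul_assoc, ← Real.rpow_add hDp]
          congr 2
          ring
      _ ≤ _ := by
          have := hG.T1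
          gcongr
  have h10 : 2 * Real.pi * (C4 * S.D ^ (-ε2)) ≤ 2 * Real.pi * C4 * S.D ^ (-(ε / 2)) := by
    have := pw (-ε2) (-(ε / 2)) (by linarith)
    rw [← mul_assoc]
    gcongr
  have h11 : δ ^ n ≤ nrm (A L f) + Ct * S.D ^ (-(ε / 2)) := by
    have : Ct * S.D ^ (-(ε / 2)) = 2 * Real.pi * C4 * S.D ^ (-(ε / 2)) + 4 * S.D ^ (-(ε / 2)) +
      2 * S.D ^ (-(ε / 2)) + (C2 + 4 * C1 + C3) * S.D ^ (-(ε / 2)) := by
      rw [hCt]; ring
    linarith
  have h12 : S.D ^ (-(ε / 8)) ≤ δ ^ n := by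
    calc S.D ^ (-(ε / 8)) ≤ S.D ^ (-(σ * n)) := pw _ _ (by linarith)
      _ = (S.D ^ (-σ)) ^ n := by
          rw [← Real.rpow_natCast, ← Real.rpow_mul hDp.le]
          congr 1
          ring
      _ ≤ δ ^ n := pow_le_pow_left₀ (Real.rpow_nonneg hDp.le _) hδ1 n
  have h13 : δ ^ (n + 1) ≤ δ ^ n / 2 := by
    rw [pow_succ]
    have := mul_le_mul_of_nonneg_left hδ2 (pow_nonneg hδ0.le n)
    linarith
  linarith

end

end Pool.Agent.Helper57.NX
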